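import Pool.Agent.N599.HO.List
import Pool.Agent.N599.HO.EqOrd
import Pool.Agent.N19.BR.EqMain

/-!
# The equivariant Beilinson conjecture for `K_{2k-1}`: reduction to L-functions which vanish to high order

`K` is a number field and `N` a natural number.  There is a relation `∑ e_j [F_j] = [K]`, with coefficient `1` on
the right, between the permutation characters of finite extensions `F_j` of `K` of the following simple kind: for
a prime number `q > N` the degree of `F_j` over `K` is `q` or `q ^ 2`, and `F_j` is generated over `K` by `q`-th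
roots of natural numbers; `F_j` has more than `N` complex places (`Pool.Agent.N599.HO.Cnt`, `Pure`, `List`; the
relation is explained in `Pool.Agent.Results.MP_46b841_nt.HighOrders`).

So for ALL finite Galois extensions `M` of `K` that contain the `F_j`, all `k > 1`, all finite sets `S` of primes,
all characters `χ` of `Gal(M / K)` unramified outside `S`, of degree `n`, and all comparison maps `T`
(see `Pool.Agent.N19.BR.EqDefs`):
* `A(χ, T) = ∏ A(χ|_{F_j}, T) ^ e_j` for the quotients of the determinants of `T` and the leading coefficients at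
  `1 - k`;
* the order of vanishing of `L(s, χ|_{F_j})` at `1 - k`, which is `dim (V_χ ⊗ V^+)^{Gal(M / F_j)}`, is at least
  `n N` (`Pool.Agent.N599.HO.EqOrd`);
* the equivariant Beilinson conjecture for the `χ|_{F_j}` implies it for `χ`.
If `χ` is a character of an abelian extension `L` of `K`, then `χ|_{F_j}` is a character of the abelian extension
`L F_j` of `F_j`.

The definitions are in `Pool.Agent.N19.BR.EqDefs`, `StDefs`, `ADefs`, `TDefs` and `Pool.Agent.N599.HO.EqOrd`, `List`.
-/

set_option autoImplicit false

namespace Pool.Agent.Results.MP_a93ca1_nt.HighOrders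

open NumberField IsDedekindDomain
open Pool.Agent.N19.BR.TDef (FieldList)
open Pool.Agent.N19.BR.SDef (Unramified)
open Pool.Agent.N19.BR.EqDef
open Pool.Agent.N599.HO (RadicalList)
open Pool.Agent.N599.HO.Eq (OrderAtLeast)

/-- **The equivariant Beilinson conjecture and high orders of vanishing.**  For every number field `K` and every
`N` there is a finite list of number fields `F_j ⊇ K` with integers `e_j`, such that each `F_j` is generated over
`K` by `q`-th roots of natural numbers and has degree `q` or `q ^ 2` for a prime `q > N`, and has more than `N`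
complex places, and such that the following holds for ALL finite Galois extensions `M` of `K` with embeddings of
the `F_j`, all `k > 1`, all finite sets `S` of primes of `K`, all complex representations `ρ` of `Gal(M / K)` of
dimension `n`, unramified outside `S`, with character `χ`, all `H` and all comparison maps `T`: the order of
vanishing of `L(s, χ|_{F_j})` at `1 - k` is at least `n N`, `A(χ, T) = ∏ A(χ|_{F_j}, T) ^ e_j` (and `L_S(χ, s)` has
a meromorphic continuation if the `L_S(χ|_{F_j}, s)` have), and if the equivariant Beilinson conjecture for the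
`χ|_{F_j}` is true over all the fields `F_j`, then it is true for `χ` over `K`. -/
theorem result (K : Type) [Field K] [NumberField K] (N : ℕ) :
    ∃ Y : FieldList K, RadicalList N Y ∧
      ∀ (M : Type) [Field M] [NumberField M] [Algebra K M] [IsGalois K M]
        (f : ∀ j, Y.F j →ₐ[K] M) (k : ℕ), 1 < k →
      ∀ S : Set (HeightOneSpectrum (𝓞 K)), S.Finite →
      ∀ (n : ℕ) (ρ : Gal(M/K) →* Matrix (Fin n) (Fin n) ℂ), Unramified S ρ →
      ∀ (H : Set ((M →+* ℂ) → ℂ)) (T : ((M →+* ℂ) → ℂ) →ₗ[ℂ] ((M →+* ℂ) → ℂ)),
        IsComparison k K H T →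
        (∀ j, OrderAtLeast k ρ (f j) (n * N)) ∧
        (∀ A : Fin Y.r → ℂ, (∀ j, IsQuotient k S ρ T (f j) (A j)) →
          IsQuotient k S ρ T (Algebra.ofId K M) (∏ j, A j ^ Y.e j)) ∧
        ((∀ j, EquivariantBeilinson k S ρ T (f j)) →
          EquivariantBeilinson k S ρ T (Algebra.ofId K M)) := by
  obtain ⟨Y, hY, hrel⟩ := Pool.Agent.N599.HO.radical_list K N
  refine ⟨Y, hY, fun M _ _ _ _ f k _ S hS n ρ hρ H T hT => ⟨fun j => ?_, fun A hA => ?_, fun h => ?_⟩⟩
  · exact Pool.Agent.N599.HO.Eq.order_ge k ρ (f j) (hY.2 j).2.le
  · exact Pool.Agent.N19.BR.eq_quotient_rel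
      (Z := fun j => (⟨Y.F j⟩ : Pool.Agent.R433.MD.Ext K)) (e := Y.e) (A := A) hS hρ hrel f hT hA
  · exact Pool.Agent.N19.BR.beilinson_of_rel
      (Z := fun j => (⟨Y.F j⟩ : Pool.Agent.R433.MD.Ext K)) (e := Y.e) hS hρ hrel f hT h

end Pool.Agent.Results.MP_a93ca1_nt.HighOrders
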