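import Pool.Agent.N770.BK.Kum

/-!
# The equivariant Beilinson conjecture for Kummer extensions

The question Q1 is about the one-dimensional characters `χ` of `Gal(L/K)`. By Borel's theorem and Gross's
formalism it can be expressed as follows. Let `k > 1`. For an Artin character `θ` of a number field `K` (with
values in the Galois group of a finite Galois extension `N / K`) choose an isomorphism
`φ : B_N^+ → ℚ ⊗ K_{2k-1}(N)` of `ℚ[Gal(N/K)]`-modules, and let `A(θ)` be the quotient of `L^*(θ⁻¹, 1 - k)` by the
determinant of `r_Bo ∘ φ` on the `θ`-part. For `α ∈ Aut(ℂ)` let `D(K, θ) = A(θ^α) / A(θ)^α`. This does not depend on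
the choices, it is multiplicative in `θ`, invariant under induction (both as Artin `L`-functions have these
properties), and `D(K, 1) = 1` for all number fields `K`: this is Borel's theorem. The assertion of Q1 for `L / K`
is: `D(K, χ) = 1` for all characters `χ` of `Gal(L/K)` and all `α`. We consider all functions `D` with these three
properties (`IsBorel`), and prove, with no other assumption, `D(K, f) = 1` in the following cases.

* `IsAffine`: `K₀` is a subfield of `K`, `K / K₀` is Galois with a Galois group isomorphic to `(ℤ/n)ˣ`, by `κ`,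
  and `f` is trivial on the common kernel, in `Gal(Qb/K)`, of finitely many cocycles of `Gal(Qb/K₀)` with values
  in `ℤ/n`, with the action by `κ`. For instance (with one cocycle for each character of `A`) all characters of
  `A = Gal(L/K)` if `L / K₀` is Galois with the group `A ⋊ (ℤ/n)ˣ`, where `A` is abelian of exponent `n` and
  `(ℤ/n)ˣ` acts by `a ↦ a ^ κ`.
* `IsKummer`: `K = K₀(ζ_n)` is of degree `φ(n)` over `K₀`, and `f` is any character of `Gal(L/K)`, where
  `L = K(β₁, …, β_r)`, `β_i ^ n ∈ K₀`. So Q1 is true for the Kummer extension `L / K`. For `K₀ = ℚ` the condition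
  on the degree is always satisfied: Q1 holds for `L = ℚ(ζ_n, b₁^{1/n}, …, b_r^{1/n})` over `K = ℚ(ζ_n)` for all `n`,
  all `k > 1` and all rational numbers `b_i`.

The proof. Let `c` be a cocycle with `f = exp(2πi c / n)` on `Gal(Qb/K)`. The group `Gal(Qb/K₀)` acts on `ℤ/m`, for
the divisors `m` of `n`, by the affine maps `j ↦ κ(g) j + c(g)`; let `π_m` be the permutation character. Then
`Ind f = ∑_{m ∣ n} μ(n/m) π_m`: the number of fixed points of `j ↦ κ j + c` on `ℤ/m` is the sum of the `ζ ^ c` over
the `m`-th roots of unity with `ζ ^ (κ - 1) = 1`, and Möbius inversion selects the roots of order `n`, for which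
`ζ ^ (κ - 1) = 1` only if `κ = 1`. So the induced character is an integral combination of characters induced from
trivial characters.
-/

set_option autoImplicit false

namespace Pool.Agent.Results.MP_a93ca1_nt.KummerExtensions

open Pool.Agent.N770.SK (Sub GQ IsNF IsOneDim)
open Pool.Agent.N770.BK (IsBorel IsAffine IsKummer)

/-- **The equivariant Beilinson conjecture for Kummer extensions.** -/
theorem result (D : Sub → (GQ → ℂ) → ℂˣ) (hD : IsBorel D) (n : ℕ) (hn : 0 < n) (K₀ K : Sub)
    (hK₀ : IsNF K₀) (f : GQ → ℂ) (hf : IsOneDim K f) (h : IsAffine n K₀ K f ∨ IsKummer n K₀ K f) :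
    D K f = 1 := by
  rcases h with h | h
  · exact Pool.Agent.N770.BK.affine hD hn hK₀ hf h
  · exact Pool.Agent.N770.BK.affine hD hn hK₀ hf (Pool.Agent.N770.BK.affine_of_kummer hn h)

end Pool.Agent.Results.MP_a93ca1_nt.KummerExtensions
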