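import Pool.Agent.N19.BR.EqMain
import Pool.Agent.N19.BR.AMain

/-!
# The equivariant Beilinson conjecture for `K_{2k-1}`: reduction to special base fields, and an unconditional
relation between the quotients of regulators and `L`-values

`K` is a number field, `L` a finite Galois (for example abelian) extension of `K`, `S₀` a finite set of primes of
`K` and `m ≥ 1`.  There is a relation `∑ e_j [F_j] = [K]`, with coefficient `1` on the right, between the
permutation characters of finite extensions `F_j` of `K` such that the groups `Gal(L F_j / F_j)` are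
hyperelementary, each for a prime number `p`, the divisors of `m` prime to `p` divide the local degrees of
`F_j / K` at the primes above `S₀`, and `F_j` has at most two real places if `p ≠ 2` (`Pool.Agent.N19.BR.Rel`, ...,
`Main`, `AMain`).

Let `M` be any finite Galois extension of `K` that contains the `F_j` (and `L`), `χ` a character of `Gal(M / K)`
(for example of `Gal(L / K)`; then its restriction to `Gal(M / F_j)` comes from the group `Gal(L F_j / F_j)`, which
is abelian if `L / K` is), `S` a finite set of primes of `K` with the primes at which `χ` is ramified, `H` a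
`Gal(M / K)`-stable rational structure on `V^+` (the image of `K_{2k-1}(M)` under Borel's regulator) and
`φ : B^+ → H` an isomorphism of `Gal(M / K)`-modules, with the `ℂ`-linear extension `T`.  We prove:
* `L_S(χ, s) = ∏ L_S(χ|_{F_j}, s) ^ e_j`, exactly (`StFrob`, `StMain`, `EqMain`), so the same relation for the
  leading coefficients at `s = 1 - k`;
* `det(T | (V_χ ⊗ V^+)^G) = ∏ det(T | (V_χ ⊗ V^+)^{H_j}) ^ e_j`, `H_j = Gal(M / F_j)`, exactly (`Det`, `StDet`,
  `GenMod`);
* so `A(χ, T) = ∏ A(χ|_{F_j}, T) ^ e_j` for the quotients, and the equivariant Beilinson conjecture for the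
  `χ|_{F_j}` implies it for `χ`.

The definitions are in `Pool.Agent.N19.BR.EqDefs`, `StDefs`, `ADefs`, `TDefs` and `Defs`.
-/

set_option autoImplicit false

namespace Pool.Agent.Results.MP_a93ca1_nt.SpecialBaseFields

open NumberField IsDedekindDomain
open Pool.Agent.N19.BR.TDef (FieldList)
open Pool.Agent.N19.BR.MDef (HyperelementaryList)
open Pool.Agent.N19.BR.SDef (Unramified)
open Pool.Agent.N19.BR.EqDef

/-- **The equivariant Beilinson conjecture over special base fields.**  For every finite Galois extension `L / K`
of number fields, every finite set `S₀` of primes of `K` and `m ≥ 1` there is a finite list of number fields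
`F_j ⊇ K` with integers `e_j`, such that for every `j` there is a prime number `p` for which the Galois group of
`L F_j / F_j` is `p`-hyperelementary, the divisors of `m` prime to `p` divide the local degrees of `F_j / K` at the
primes above `S₀`, and `F_j` has at most two real places if `p ≠ 2`, and such that the following holds for ALL finite
Galois extensions `M` of `K` with embeddings of the `F_j`, all `k > 1`, all finite sets `S` of primes of `K`, all
complex representations `ρ` of `Gal(M / K)` unramified outside `S`, with character `χ`, all `H` and all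
comparison maps `T`: `A(χ, T) = ∏ A(χ|_{F_j}, T) ^ e_j` (and `L_S(χ, s)` has a meromorphic continuation if the
`L_S(χ|_{F_j}, s)` have), and if the equivariant Beilinson conjecture for the `χ|_{F_j}` is true over all the fields
`F_j`, then it is true for `χ` over `K`. -/
theorem result (K : Type) [Field K] [NumberField K] (L : Type) [Field L] [NumberField L]
    [Algebra K L] [IsGalois K L] (S₀ : Set (HeightOneSpectrum (𝓞 K))) (hS₀ : S₀.Finite) (m : ℕ)
    (hm : m ≠ 0) :
    ∃ Y : FieldList K, HyperelementaryList L S₀ m Y ∧
      ∀ (M : Type) [Field M] [NumberField M] [Algebra K M] [IsGalois K M]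
        (f : ∀ j, Y.F j →ₐ[K] M) (k : ℕ), 1 < k →
      ∀ S : Set (HeightOneSpectrum (𝓞 K)), S.Finite →
      ∀ (n : ℕ) (ρ : Gal(M/K) →* Matrix (Fin n) (Fin n) ℂ), Unramified S ρ →
      ∀ (H : Set ((M →+* ℂ) → ℂ)) (T : ((M →+* ℂ) → ℂ) →ₗ[ℂ] ((M →+* ℂ) → ℂ)),
        IsComparison k K H T →
        (∀ A : Fin Y.r → ℂ, (∀ j, IsQuotient k S ρ T (f j) (A j)) →
          IsQuotient k S ρ T (Algebra.ofId K M) (∏ j, A j ^ Y.e j)) ∧
        ((∀ j, EquivariantBeilinson k S ρ T (f j)) →
          EquivariantBeilinson k S ρ T (Algebra.ofId K M)) := by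
  obtain ⟨Y, hY, hrel⟩ := Pool.Agent.N19.BR.hyper_list K L S₀ hS₀ m hm
  refine ⟨Y, hY, fun M _ _ _ _ f k _ S hS n ρ hρ H T hT => ⟨fun A hA => ?_, fun h => ?_⟩⟩
  · exact Pool.Agent.N19.BR.eq_quotient_rel
      (Z := fun j => (⟨Y.F j⟩ : Pool.Agent.R433.MD.Ext K)) (e := Y.e) (A := A) hS hρ hrel f hT hA
  · exact Pool.Agent.N19.BR.beilinson_of_rel
      (Z := fun j => (⟨Y.F j⟩ : Pool.Agent.R433.MD.Ext K)) (e := Y.e) hS hρ hrel f hT h

end Pool.Agent.Results.MP_a93ca1_nt.SpecialBaseFields
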