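import Pool.Agent.N770.BK.Par

/-!
# The equivariant Beilinson conjecture: reduction to totally complex base fields

As in `MP_a93ca1_nt.KummerExtensions` the question Q1 (for a fixed `k > 1`) is expressed by functions `D`: for an
Artin character `θ` of a number field `K` let `A(θ)` be the quotient of `L^*(θ⁻¹, 1 - k)` by the determinant of
`r_Bo ∘ φ` on the `θ`-part (`φ : B^+ → ℚ ⊗ K_{2k-1}` an isomorphism of Galois modules), and for `α ∈ Aut(ℂ)` let
`D(K, θ) = A(θ^α) / A(θ)^α`.  Then `D` is multiplicative in `θ`, invariant under induction, `D(K, 1) = 1` by
Borel's theorem (`IsBorel`), and `D(K, f) = 1` if `K` is totally real and `f` is a one-dimensional character with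
`f(c) = (-1)^k` for all complex conjugations `c`, by the theorem of Siegel and Klingen: then `V^+` has no
`f`-part, and `L(f⁻¹, 1 - k) ≠ 0` is an algebraic number, with the expected conjugates (`IsBeilinson s`, where
`s = (-1)^k`).  The assertion of Q1 for `L / K` is: `D(K, χ) = 1` for all characters `χ` of `Gal(L/K)` and all `α`.

Suppose that `D` is trivial on the one-dimensional characters of the totally complex number fields
(`TrivialComplex`): the assertion of Q1 for all abelian extensions `L / K` with a totally complex `K`.  Then for
every number field `K`:

* if `K` is totally real, `D(K, f) = 1` for all one-dimensional `f`: Q1 is true for all abelian extensions of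
  totally real fields;
* `D(K, θ) = ± 1` for all virtual characters `θ`;
* `D(K, θ) = 1` for the characters `θ` of representations `ρ` with `ρ(g) ^ e = 1`, where `4` does not divide `e`:
  Q1 is true for all abelian extensions `L / K` for which the exponent of `Gal(L/K)` is not divisible by `4`;
* `D(K, f) = D(K, f')` for one-dimensional `f`, `f'` with `f ^ 2 = f' ^ 2`;
* the remaining case: `K` has real places and complex places and `f` is of `2`-power order.  Here the signs of `f` at
  the real places can be prescribed: if `D(K, f) = 1` for the `f` of `2`-power order with given signs at the real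
  places (all `+1`, or all `-1`, or any choice), then `D(K, f) = 1` for all one-dimensional `f`.

The proof.  The general facts about functions `D` which are trivial on quadratic characters are from
`MP_46b841_nt.TotallyComplexBaseFields`.  A quadratic character is a difference of two permutation characters, so
`D` is trivial on it by Borel's theorem.  `D(K, f)` depends only on `f ^ 2`, so `f` may be multiplied by a quadratic
character with arbitrary signs at the real places; over a totally real field `f` becomes critical.
-/

set_option autoImplicit false

namespace Pool.Agent.Results.MP_a93ca1_nt.TotallyComplexBaseFields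

open Pool.Agent.N770.SK (Sub GQ IsNF IsOneDim IsVirt IsNotFour TrivialComplex)
open Pool.Agent.N770.BK (TotReal IsBeilinson IsSigns HasSigns)

/-- **Reduction to totally complex base fields.** -/
theorem result (s : ℤˣ) (D : Sub → (GQ → ℂ) → ℂˣ) (hD : IsBeilinson s D) (hc : TrivialComplex D)
    (K : Sub) (hK : IsNF K) :
    (TotReal K → ∀ f, IsOneDim K f → D K f = 1) ∧
    (∀ θ, IsVirt K θ → D K θ = 1 ∨ D K θ = -1) ∧ (∀ θ, IsNotFour K θ → D K θ = 1) ∧
    (∀ f, IsOneDim K f → ∀ f', IsOneDim K f' → f ^ 2 = f' ^ 2 → D K f = D K f') ∧
    (∀ s', IsSigns K s' → (∀ f, HasSigns K s' f → D K f = 1) → ∀ f, IsOneDim K f → D K f = 1) :=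
  Pool.Agent.N770.BK.beilinson_complex hD hc K hK

end Pool.Agent.Results.MP_a93ca1_nt.TotallyComplexBaseFields
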